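import Pool.Agent.V11222.RigidMain

/-!
There is a zero-dimensional separable metrizable space that is σ-homogeneous but not
σ-homogeneous with closed witnesses. The definitions are in
`Pool/Agent/V11222/HomogDefs.lean`.
-/

namespace Pool.Agent.Results.MP_27e890_gt.NotClosedWitnesses

open Set Topology Pool.Agent.V11222 Pool.Agent.V11222.GenTrans

/-- There is a subspace `X` of the Cantor space (hence a zero-dimensional separable metrizable
space) that is σ-homogeneous but not σ-homogeneous with closed witnesses. Moreover `X` is
uncountable and the union of two disjoint homogeneous subspaces, but all closed homogeneous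
subspaces of `X` are countable. -/
theorem result : ∃ X : Set (ℕ → Bool),
    IsZeroDimSpace X ∧ TopologicalSpace.SeparableSpace X ∧ TopologicalSpace.MetrizableSpace X ∧
    IsSigmaHomogeneous X ∧ ¬ IsSigmaHomogeneousClosed X ∧
    (∃ A B : Set X, IsHomogeneousSpace A ∧ IsHomogeneousSpace B ∧ Disjoint A B ∧
      A ∪ B = Set.univ) ∧
    (∀ A : Set X, IsClosed A → IsHomogeneousSpace A → A.Countable) ∧ ¬ X.Countable := by
  classical
  obtain ⟨G⟩ := exists_generic_transversal countable_RR RR_symm
  have hunc := not_countable_XX G
  obtain ⟨A, B, hA, hB, hAB, hu⟩ := XX_parts G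
  refine ⟨XX G, isZeroDim_sub ⟨G.t (Classical.arbitrary J), t_mem G _⟩, inferInstance,
    inferInstance, isSigma_of_two hA hB hu, ?_, ⟨A, B, hA, hB, hAB, hu⟩,
    countable_of_closed_homogeneous G, hunc⟩
  rintro ⟨A, hA, hAu⟩
  apply hunc
  have h1 : (Set.univ : Set (XX G)).Countable := by
    rw [← hAu]
    exact countable_iUnion (fun n => countable_of_closed_homogeneous G _ (hA n).1 (hA n).2)
  have h2 := h1.image (Subtype.val : XX G → (ℕ → Bool))
  rwa [image_univ, Subtype.range_coe] at h2

end Pool.Agent.Results.MP_27e890_gt.NotClosedWitnesses
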